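import Pool.Agent.Helper19.PQ.Defs

/-!
# Project PQ, piece PQ-1
-/

open MeasureTheory Set Metric Filter Module Matrix
open scoped NNReal Topology RealInnerProductSpace ENNReal Real

namespace Pool.Agent.Helper19.PQ

open Pool.Agent.Helper19.PS (NP)

private theorem p1_det_ne {d : ℕ} (A : Matrix (Fin d) (Fin d) ℝ) (a : Fin d → ℝ) :
    (1 + A * Aᵀ + vecMulVec a a).det ≠ 0 := by
  have h1 : (1 : Matrix (Fin d) (Fin d) ℝ).PosDef := Matrix.PosDef.one
  have h2 : (A * Aᵀ).PosSemidef := by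
    have := Matrix.posSemidef_self_mul_conjTranspose A
    rwa [Matrix.conjTranspose_eq_transpose_of_trivial] at this
  have h3 : (vecMulVec a a).PosSemidef := by
    have := Matrix.posSemidef_vecMulVec_self_star a
    rwa [star_trivial] at this
  exact ((h1.add_posSemidef h2).add_posSemidef h3).det_pos.ne'

private theorem p1_cont_NP {d : ℕ} (a : Fin d → ℝ) (i : Fin d) :
    Continuous (fun A : Matrix (Fin d) (Fin d) ℝ => NP A (-1) a i) := by
  refine continuous_matrix fun p q => ?_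
  rcases p with p | p <;> rcases q with q | q
  · exact continuous_const
  · fin_cases p
    · simp only [NP, Matrix.fromBlocks_apply₁₂]
      simp
      fun_prop
    · simp only [NP, Matrix.fromBlocks_apply₁₂]
      simp
      fun_prop
  · fin_cases q
    · simp only [NP, Matrix.fromBlocks_apply₂₁]
      simp
      fun_prop
    · simp only [NP, Matrix.fromBlocks_apply₂₁]
      simp
      fun_prop
  · exact continuous_const

private theorem p1_cont_qd {d : ℕ} (a : Fin d → ℝ) {X : Type*} [TopologicalSpace X]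
    {F : X → Matrix (Fin d) (Fin d) ℝ} {G : X → Fin 2 ⊕ Fin d → ℝ} (hF : Continuous F)
    (hG : Continuous G) : Continuous (fun x => qd (F x) a (G x)) := by
  have h1 : Continuous (fun x => (1 + F x * (F x)ᵀ + vecMulVec a a)) := by
    fun_prop
  have h2 : Continuous (fun x => (1 + F x * (F x)ᵀ + vecMulVec a a)⁻¹) := by
    have : (fun x => (1 + F x * (F x)ᵀ + vecMulVec a a)⁻¹) = fun x =>
        ((1 + F x * (F x)ᵀ + vecMulVec a a).det)⁻¹ • (1 + F x * (F x)ᵀ + vecMulVec a a).adjugate := by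
      funext x
      rw [Matrix.inv_def, Ring.inverse_eq_inv']
    rw [this]
    exact (h1.matrix_det.inv₀ fun x => p1_det_ne (F x) a).smul h1.matrix_adjugate
  have h3 : Continuous (fun x => Gr (F x) a (G x)) := by
    refine continuous_matrix fun i j => ?_
    simp only [Gr, Matrix.of_apply]
    exact (((p1_cont_NP a i).comp hF).matrix_mulVec hG).dotProduct
      (((p1_cont_NP a j).comp hF).matrix_mulVec hG)
  exact (h2.matrix_mul h3).matrix_trace

private theorem p1_cont2 {d : ℕ} (a : Fin d → ℝ) :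
    Continuous (fun p : Matrix (Fin d) (Fin d) ℝ × EuclideanSpace ℝ (Fin 2 ⊕ Fin d) =>
      (d : ℝ) - qd p.1 a p.2.ofLp) :=
  continuous_const.sub (p1_cont_qd a continuous_fst (by fun_prop))

private theorem p1_mem {d : ℕ} (ξ : EuclideanSpace ℝ (Fin 2 ⊕ Fin d)) :
    ξ ∈ sphere (0 : EuclideanSpace ℝ (Fin 2 ⊕ Fin d)) 1 ↔ ξ.ofLp ⬝ᵥ ξ.ofLp = 1 := by
  rw [mem_sphere_zero_iff_norm]
  have h : ξ.ofLp ⬝ᵥ ξ.ofLp = ‖ξ‖ ^ 2 := by
    rw [EuclideanSpace.real_norm_sq_eq, dotProduct]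
    exact Finset.sum_congr rfl fun i _ => (sq _).symm
  rw [h]
  constructor
  · intro h; rw [h]; norm_num
  · intro h
    have := norm_nonneg ξ
    nlinarith

private theorem p1_compact {d : ℕ} (A : Matrix (Fin d) (Fin d) ℝ) (a : Fin d → ℝ) :
    IsCompact ((fun ξ : EuclideanSpace ℝ (Fin 2 ⊕ Fin d) => (d : ℝ) - qd A a ξ.ofLp)
    '' sphere (0 : EuclideanSpace ℝ (Fin 2 ⊕ Fin d)) 1) :=
  (isCompact_sphere _ _).image (continuous_const.sub (p1_cont_qd a continuous_const (by fun_prop)))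

/-- the infimum is attained and is a lower bound. -/
theorem bet_le {d : ℕ} (A : Matrix (Fin d) (Fin d) ℝ) (a : Fin d → ℝ) (ξ : Fin 2 ⊕ Fin d → ℝ)
    (hξ : ξ ⬝ᵥ ξ = 1) : bet A a ≤ d - qd A a ξ :=
  csInf_le (p1_compact A a).bddBelow ⟨WithLp.toLp 2 ξ, (p1_mem _).2 hξ, rfl⟩

theorem exists_bet {d : ℕ} (A : Matrix (Fin d) (Fin d) ℝ) (a : Fin d → ℝ) :
    ∃ ξ : Fin 2 ⊕ Fin d → ℝ, ξ ⬝ᵥ ξ = 1 ∧ bet A a = d - qd A a ξ := by
  have hne : ((fun ξ : EuclideanSpace ℝ (Fin 2 ⊕ Fin d) => (d : ℝ) - qd A a ξ.ofLp)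
      '' sphere (0 : EuclideanSpace ℝ (Fin 2 ⊕ Fin d)) 1).Nonempty := by
    refine ⟨_, EuclideanSpace.single (Sum.inl 0) 1, ?_, rfl⟩
    rw [mem_sphere_zero_iff_norm]
    simp
  obtain ⟨ξ, hξ, h⟩ := (p1_compact A a).sInf_mem hne
  exact ⟨ξ.ofLp, (p1_mem ξ).1 hξ, h.symm⟩

theorem continuous_bet {d : ℕ} (a : Fin d → ℝ) :
    Continuous (fun A : Matrix (Fin d) (Fin d) ℝ => bet A a) := by
  have key : ∀ f : Matrix (Fin d) (Fin d) ℝ → EuclideanSpace ℝ (Fin 2 ⊕ Fin d) → ℝ,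
      Continuous (fun p : Matrix (Fin d) (Fin d) ℝ × EuclideanSpace ℝ (Fin 2 ⊕ Fin d) =>
        f p.1 p.2) → Continuous (fun A => sInf (f A ''
          sphere (0 : EuclideanSpace ℝ (Fin 2 ⊕ Fin d)) 1)) := by
    intro f hf
    exact (isCompact_sphere (0 : EuclideanSpace ℝ (Fin 2 ⊕ Fin d)) 1).continuous_sInf hf
  exact key _ (p1_cont2 a)

end Pool.Agent.Helper19.PQ
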